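import Pool.Agent.K1H73.SQB.Stm3
import Pool.Agent.Y486.SQ.Law

set_option autoImplicit false

/-!
# Piece MOM3 of the project SQB (helper73): the joint binomial moments, with prescribed elements.
Adaptation of `K1H89/SQB/Mom.lean` (helper89).
-/

namespace Pool.Agent.K1H75.SQB

open Finset Pool.Agent.H373R2.T7 Pool.Agent.Y862.SQ Pool.Agent.K1H73.SQB

variable {k : ℕ}

/-- the condition, base point `Z` -/
def QZ (q : ℕ) (a s : Fin k → ℕ) (P : Finset (ℕ × ℕ)) (Z : ℕ) (G : Fin k → Finset ℕ)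
    (p n : ℕ) : Prop := Qp q a s P G p (n + Z)

lemma QZ_per (q : ℕ) (a s : Fin k → ℕ) (P : Finset (ℕ × ℕ)) (Z : ℕ) (G : Fin k → Finset ℕ)
    (p n : ℕ) : QZ q a s P Z G p n ↔ QZ q a s P Z G p (n % p) := by
  have key : ∀ t h : ℕ, (n + Z + t) ^ 2 + h ≡ (n % p + Z + t) ^ 2 + h [MOD p] := by
    intro t h
    apply Nat.ModEq.add_right
    apply Nat.ModEq.pow
    apply Nat.ModEq.add_right
    apply Nat.ModEq.add_right
    exact (Nat.mod_modEq n p).symm
  unfold QZ Qp Qc
  apply or_congr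
  · apply exists_congr
    intro z
    apply and_congr_right
    intro _
    exact Nat.ModEq.dvd_iff (key z.1 z.2) (dvd_refl p)
  · apply exists_congr
    intro i
    apply exists_congr
    intro h
    apply and_congr_right
    intro _
    have h1 := key (s i) h
    have h2 : ((n + Z + s i) ^ 2 + h) % p = ((n % p + Z + s i) ^ 2 + h) % p := h1
    rw [Nat.ModEq.dvd_iff h1 (dvd_refl p), h2]

open Classical in
lemma QZ_perB {q : ℕ} (hq : Squarefree q) (a s : Fin k → ℕ) (P : Finset (ℕ × ℕ)) (Z : ℕ)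
    (G : Fin k → Finset ℕ) :
    PerB (QZ q a s P Z G) (2 * (∑ i, (G i).card + P.card) + q + 1) := by
  refine ⟨QZ_per q a s P Z G, fun p hp => ?_⟩
  by_cases hpq : p ∣ q
  · have h1 : p ≤ q := Nat.le_of_dvd (Nat.pos_of_ne_zero hq.ne_zero) hpq
    have h2 := nuB_le (QZ q a s P Z G) p
    omega
  · have h1 : (range p).filter (fun r => QZ q a s P Z G p r) ⊆
        (P.biUnion (fun z => (range p).filter (fun r => p ∣ (r + (Z + z.1)) ^ 2 + z.2))) ∪
        (univ : Finset (Fin k)).biUnion (fun i => (G i).biUnion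
          (fun h => (range p).filter (fun r => p ∣ (r + (Z + s i)) ^ 2 + h))) := by
      intro r hr
      rw [mem_filter] at hr
      rw [mem_union]
      obtain ⟨hr1, ⟨z, hz, hd⟩ | ⟨i, h, hh, hq1⟩⟩ := hr
      · left
        rw [mem_biUnion]
        refine ⟨z, hz, mem_filter.2 ⟨hr1, ?_⟩⟩
        rwa [← add_assoc]
      · right
        rw [mem_biUnion]
        refine ⟨i, mem_univ _, ?_⟩
        rw [mem_biUnion]
        refine ⟨h, hh, mem_filter.2 ⟨hr1, ?_⟩⟩
        rw [← add_assoc]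
        by_contra hnd
        exact hq1 ⟨hnd, fun hpq' => absurd hpq' hpq⟩
    have h2 : ((univ : Finset (Fin k)).biUnion (fun i => (G i).biUnion
          (fun h => (range p).filter (fun r => p ∣ (r + (Z + s i)) ^ 2 + h)))).card ≤
        2 * ∑ i, (G i).card := by
      refine card_biUnion_le.trans ?_
      rw [mul_sum]
      refine sum_le_sum fun i _ => ?_
      have := Finset.card_biUnion_le_card_mul (G i)
        (fun h => (range p).filter (fun r => p ∣ (r + (Z + s i)) ^ 2 + h)) 2 (by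
          intro b _
          exact Pool.Agent.Y486.SQ.two_roots (Z + s i) b p hp)
      rwa [mul_comm] at this
    have h5 : (P.biUnion (fun z => (range p).filter
        (fun r => p ∣ (r + (Z + z.1)) ^ 2 + z.2))).card ≤ 2 * P.card := by
      have := Finset.card_biUnion_le_card_mul P
        (fun z => (range p).filter (fun r => p ∣ (r + (Z + z.1)) ^ 2 + z.2)) 2 (by
          intro b _
          exact Pool.Agent.Y486.SQ.two_roots (Z + b.1) b.2 p hp)
      rwa [mul_comm] at this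
    have h3 : nuB (QZ q a s P Z G) p =
        ((range p).filter (fun r => QZ q a s P Z G p r)).card := by
      unfold nuB
      congr
    rw [h3]
    have h4 := (card_le_card h1).trans (card_union_le _ _)
    omega

open Classical in
lemma nuB_QZ (q : ℕ) (a s : Fin k → ℕ) (P : Finset (ℕ × ℕ)) (Z : ℕ) (G : Fin k → Finset ℕ)
    (p : ℕ) : nuB (QZ q a s P Z G) p = rP q a s P G p := by
  have hper : Function.Periodic (fun n => QZ q a s P 0 G p n) p := by
    intro n
    have h1 := QZ_per q a s P 0 G p (n + p)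
    rw [Nat.add_mod_right, ← QZ_per q a s P 0 G p n] at h1
    exact propext h1
  have h2 := Nat.filter_Ico_card_eq_of_periodic Z p (fun n => QZ q a s P 0 G p n) hper
  have h3 := Nat.filter_Ico_card_eq_of_periodic 0 p (fun n => QZ q a s P 0 G p n) hper
  rw [zero_add, Nat.Ico_zero_eq_range] at h3
  have h4 : rP q a s P G p = ((Ico Z (Z + p)).filter (fun n => QZ q a s P 0 G p n)).card := by
    rw [h2, ← h3]
    unfold rP
    congr
  rw [h4]
  unfold nuB
  apply Finset.card_bij (fun r _ => r + Z)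
  · intro r hr
    rw [mem_filter, mem_range] at hr
    rw [mem_filter, mem_Ico]
    exact ⟨by omega, hr.2⟩
  · intro r _ r' _ hrr
    omega
  · intro n hn
    rw [mem_filter, mem_Ico] at hn
    refine ⟨n - Z, ?_, by omega⟩
    rw [mem_filter, mem_range]
    refine ⟨by omega, ?_⟩
    have h5 := hn.2
    unfold QZ at h5 ⊢
    rw [Nat.sub_add_cancel hn.1.1]
    rwa [Nat.add_zero] at h5

lemma DP_eq (q : ℕ) (a s : Fin k → ℕ) (P : Finset (ℕ × ℕ)) (Z : ℕ) (G : Fin k → Finset ℕ)
    (y : ℕ) : ∏ p ∈ pz y, (1 - (nuB (QZ q a s P Z G) p : ℝ) / p) = DP q a s P G y := by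
  unfold DP
  apply Finset.prod_congr rfl
  intro p _
  rw [nuB_QZ]

open Classical in
lemma prod_choose (q : ℕ) (a s κ S U : Fin k → ℕ) (P : Finset (ℕ × ℕ)) (y m : ℕ) :
    ∏ i, (NP P q (a i) y (s i) (S i) (U i) m).choose (κ i) =
      ((bxP P κ s S U).filter (fun G => ∀ p ∈ pz y, ¬ Qc q a s G p m)).card := by
  have h1 : ∀ i, (NP P q (a i) y (s i) (S i) (U i) m).choose (κ i) =
      (powersetCard (κ i) ((blk P (s i) (S i) (U i)).filter
        (fun h => ok q (a i) y ((m + s i) ^ 2 + h)))).card := by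
    intro i
    rw [card_powersetCard]
    unfold NP
    congr
  rw [prod_congr rfl fun i _ => h1 i, ← Fintype.card_piFinset]
  congr 1
  ext G
  unfold bxP
  rw [mem_filter, Fintype.mem_piFinset, Fintype.mem_piFinset]
  constructor
  · intro h
    refine ⟨fun i => ?_, fun p hp hQ => ?_⟩
    · have := h i
      rw [mem_powersetCard] at this ⊢
      exact ⟨fun x hx => (mem_filter.1 (this.1 hx)).1, this.2⟩
    · obtain ⟨i, t, ht, hn⟩ := hQ
      have h2 := h i
      rw [mem_powersetCard] at h2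
      exact hn ((mem_filter.1 (h2.1 ht)).2 p hp)
  · rintro ⟨h, h2⟩ i
    have := h i
    rw [mem_powersetCard] at this ⊢
    refine ⟨fun x hx => mem_filter.2 ⟨this.1 hx, fun p hp => ?_⟩, this.2⟩
    by_contra hn
    exact h2 p hp ⟨i, x, hx, hn⟩

lemma good_iff (q : ℕ) (a s : Fin k → ℕ) (P : Finset (ℕ × ℕ)) (Z y n : ℕ)
    (G : Fin k → Finset ℕ) : (∀ p ∈ pz y, ¬ QZ q a s P Z G p n) ↔
      gd P y (n + Z) ∧ ∀ p ∈ pz y, ¬ Qc q a s G p (n + Z) := by
  constructor
  · intro h
    exact ⟨fun z hz p hp hd => h p hp (Or.inl ⟨z, hz, hd⟩), fun p hp h1 => h p hp (Or.inr h1)⟩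
  · rintro ⟨h1, h2⟩ p hp (⟨z, hz, hd⟩ | h3)
    · exact h1 z hz p hp hd
    · exact h2 p hp h3

open Classical in
lemma moment_eq (q : ℕ) (a s κ S U : Fin k → ℕ) (P : Finset (ℕ × ℕ)) (Z y Y : ℕ) :
    ∑ n ∈ (Icc 1 Y).filter (fun n => gd P y (n + Z)),
      ∏ i, ((NP P q (a i) y (s i) (S i) (U i) (n + Z)).choose (κ i) : ℝ) =
      ∑ G ∈ bxP P κ s S U,
        (((Icc 1 Y).filter (fun n => ∀ p ∈ pz y, ¬ QZ q a s P Z G p n)).card : ℝ) := by
  have h1 : ∀ G ∈ bxP P κ s S U,
      (((Icc 1 Y).filter (fun n => ∀ p ∈ pz y, ¬ QZ q a s P Z G p n)).card : ℝ) =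
      ∑ n ∈ (Icc 1 Y).filter (fun n => gd P y (n + Z)),
        if (∀ p ∈ pz y, ¬ Qc q a s G p (n + Z)) then (1 : ℝ) else 0 := by
    intro G _
    rw [Finset.sum_ite, Finset.sum_const_zero, add_zero, Finset.sum_const, nsmul_eq_mul, mul_one,
      Finset.filter_filter]
    congr 2
    ext n
    rw [mem_filter, mem_filter, good_iff]
  rw [Finset.sum_congr rfl h1, Finset.sum_comm]
  apply Finset.sum_congr rfl
  intro m _
  rw [Finset.sum_ite, Finset.sum_const_zero, add_zero, Finset.sum_const, nsmul_eq_mul, mul_one]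
  have := prod_choose q a s κ S U P y (m + Z)
  exact_mod_cast this

lemma card_bxP {κ S U : Fin k → ℕ} {T : ℕ} (P : Finset (ℕ × ℕ)) (s : Fin k → ℕ)
    (hU : ∀ i, U i ≤ T) : ((bxP P κ s S U).card : ℝ) ≤ (T : ℝ) ^ (∑ i, κ i) := by
  unfold bxP
  rw [Fintype.card_piFinset, ← prod_pow_eq_pow_sum]
  push_cast
  refine prod_le_prod (fun i _ => by positivity) fun i _ => ?_
  rw [card_powersetCard]
  have h0 : (blk P (s i) (S i) (U i)).card ≤ T := by
    have h1 : (blk P (s i) (S i) (U i)).card ≤ (Ioc (S i) (U i)).card :=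
      card_le_card (filter_subset _ _)
    rw [Nat.card_Ioc] at h1
    have := hU i
    omega
  have h1 : (blk P (s i) (S i) (U i)).card.choose (κ i) ≤
      (blk P (s i) (S i) (U i)).card ^ κ i := Nat.choose_le_pow _ _
  have h2 : (blk P (s i) (S i) (U i)).card ^ κ i ≤ T ^ κ i := Nat.pow_le_pow_left h0 _
  exact_mod_cast h1.trans h2

theorem t_MOM3 (h : S_BOX3) : S_MOM3 := by
  classical
  intro k q a s κ P x0 η hq ha hP hP1 hη
  obtain ⟨y1, T1, hbox⟩ := h k q a s κ P x0 (η / 2) hq ha hP hP1 (by positivity)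
  set X1 : ℝ := (1 + |x0|) ^ (∑ i, κ i) with hX1
  have hX1pos : 0 < X1 := by positivity
  set ε' : ℝ := η / (2 * (X1 + η)) with hε'
  have hε'pos : 0 < ε' := by positivity
  have hε'2 : ε' * (X1 + η / 2) ≤ η / 2 := by
    rw [hε', div_mul_eq_mul_div, div_le_div_iff₀ (by positivity) (by norm_num)]
    nlinarith
  obtain ⟨K0, x1, -, hfund⟩ := sys_fund (2 * (∑ i, κ i + P.card) + q + 1) (by omega) ε' hε'pos
  refine ⟨K0, max x1 y1, T1, ?_⟩
  intro Z Y y T hy hyY hT hx S U hU hD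
  have hb := hbox y T ((le_max_right _ _).trans hy) hT hx S U hU hD
  rw [moment_eq]
  have hV0 := Pool.Agent.Y486.SQ.V1_nonneg y
  have hY0 : (0 : ℝ) ≤ Y := Nat.cast_nonneg Y
  have hVP0 : 0 ≤ VP P y := by
    have h1 := (abs_nonneg _).trans hb
    have h2 : 0 < η / 2 := by positivity
    exact nonneg_of_mul_nonneg_right h1 h2
  have hphi : (1 : ℝ) ≤ (Nat.totient q : ℝ) := by
    exact_mod_cast Nat.totient_pos.2 (Nat.pos_of_ne_zero hq.ne_zero)
  have hmu0 : ∀ i, 0 ≤ mu q y (S i) (U i) := fun i => by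
    unfold mu; positivity
  have hmu1 : ∀ i, mu q y (S i) (U i) ≤ 1 + |x0| := fun i => by
    unfold mu
    have h1 : ((U i - S i : ℕ) : ℝ) * V1 y / (Nat.totient q : ℝ) ≤ ((U i - S i : ℕ) : ℝ) * V1 y :=
      div_le_self (by positivity) hphi
    have h2 : ((U i - S i : ℕ) : ℝ) ≤ T := by
      have := hU i
      exact_mod_cast (by omega : U i - S i ≤ T)
    have h3 := mul_le_mul_of_nonneg_right h2 hV0
    have h4 := le_abs_self x0
    linarith
  have hmt : mt κ (fun i => mu q y (S i) (U i)) ≤ X1 := by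
    unfold Pool.Agent.K1H73.SQB.mt
    rw [hX1, ← prod_pow_eq_pow_sum]
    refine prod_le_prod (fun i _ => by have := hmu0 i; positivity) fun i _ => ?_
    have hf1 : (1 : ℝ) ≤ ((κ i).factorial : ℝ) := by exact_mod_cast Nat.factorial_pos (κ i)
    calc mu q y (S i) (U i) ^ κ i / ((κ i).factorial : ℝ) ≤ mu q y (S i) (U i) ^ κ i :=
          div_le_self (pow_nonneg (hmu0 i) _) hf1
      _ ≤ (1 + |x0|) ^ κ i := pow_le_pow_left₀ (hmu0 i) (hmu1 i) _
  set Sg : ℝ := ∑ G ∈ bxP P κ s S U, DP q a s P G y with hSg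
  set W : ℝ := mt κ (fun i => mu q y (S i) (U i)) with hW
  have h1 : |∑ G ∈ bxP P κ s S U,
      (((Icc 1 Y).filter (fun n => ∀ p ∈ pz y, ¬ QZ q a s P Z G p n)).card : ℝ) - Y * Sg| ≤
      ε' * (Y * Sg) + (T : ℝ) ^ (∑ i, κ i) * √(Y : ℝ) := by
    have e : Y * Sg = ∑ G ∈ bxP P κ s S U, (Y : ℝ) * DP q a s P G y := by
      rw [hSg, Finset.mul_sum]
    rw [e, ← Finset.sum_sub_distrib]
    refine (Finset.abs_sum_le_sum_abs _ _).trans ?_
    have h2 : ∀ G ∈ bxP P κ s S U,
        |(((Icc 1 Y).filter (fun n => ∀ p ∈ pz y, ¬ QZ q a s P Z G p n)).card : ℝ) -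
          Y * DP q a s P G y| ≤ ε' * (Y * DP q a s P G y) + √(Y : ℝ) := by
      intro G hG
      have hcG : ∀ i, (G i).card = κ i := by
        intro i
        unfold bxP at hG
        rw [Fintype.mem_piFinset] at hG
        exact (mem_powersetCard.1 (hG i)).2
      have hper := QZ_perB hq a s P Z G
      rw [sum_congr rfl fun i _ => hcG i] at hper
      have h3 := hfund Y y ((le_max_left _ _).trans hy) hyY (QZ q a s P Z G) hper Y
      rw [DP_eq] at h3
      convert h3
    refine (Finset.sum_le_sum h2).trans ?_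
    rw [Finset.sum_add_distrib, ← Finset.mul_sum, Finset.sum_const, nsmul_eq_mul]
    have h4 := mul_le_mul_of_nonneg_right (card_bxP (κ := κ) (S := S) P s hU)
      (Real.sqrt_nonneg (Y : ℝ))
    linarith
  have h5 : |Y * Sg - Y * (VP P y * W)| ≤ Y * (η / 2 * VP P y) := by
    rw [← mul_sub, abs_mul, abs_of_nonneg hY0]
    exact mul_le_mul_of_nonneg_left hb hY0
  have h6 : ε' * (Y * Sg) ≤ η / 2 * (Y * VP P y) := by
    have h7 : Sg ≤ VP P y * (X1 + η / 2) := by
      have h8 := (abs_le.1 hb).2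
      have h9 := mul_le_mul_of_nonneg_left hmt hVP0
      linarith
    calc ε' * (Y * Sg) ≤ ε' * (Y * (VP P y * (X1 + η / 2))) := by gcongr
      _ = (ε' * (X1 + η / 2)) * (Y * VP P y) := by ring
      _ ≤ η / 2 * (Y * VP P y) := by gcongr
  have h9 := abs_sub_le (∑ G ∈ bxP P κ s S U,
      (((Icc 1 Y).filter (fun n => ∀ p ∈ pz y, ¬ QZ q a s P Z G p n)).card : ℝ)) (Y * Sg)
      (Y * (VP P y * W))
  have h10 : (Y : ℝ) * VP P y * W = Y * (VP P y * W) := by ring
  rw [h10]
  linarith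

end Pool.Agent.K1H75.SQB
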